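import Pool.Agent.MP_3ce0a0_al.H3.CutA

/-
Optimal cuts are nested; virtually free groups have invariant nested families of cuts.
-/

namespace Pool.Agent.MP_3ce0a0_al.H3

open Pointwise Set Filter
open Pool.Agent.MP_3ce0a0_al.H79

section opt
variable {E : Type} [Group E] [LinearOrder E] [WellFoundedLT E]

/-- the sizes of all coboundaries. -/
noncomputable def nu (S : Finset E) (C : Set E) : Lex (WithBot E → ℕ) :=
  toLex (WithBot.recBotCoe (wt S C) fun h => (bd h C).ncard)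

variable {S : Finset E} {f g : E} {C D : Set E}

omit [LinearOrder E] [WellFoundedLT E] in
lemma nu_compl : nu S Cᶜ = nu S C := by simp only [nu, wt_compl, bd_compl]

omit [LinearOrder E] [WellFoundedLT E] in
lemma nu_smul (g : E) : nu S (g • C) = nu S C := by
  simp only [nu, wt_smul, bd_smul, ncard_smul_set]

omit [WellFoundedLT E] in
lemma wt_le_of_nu (h : nu S C ≤ nu S D) : wt S C ≤ wt S D :=
  Pi.apply_le_of_toLex (i := ⊥) h fun _ hj => absurd hj not_lt_bot

lemma nu_lt_of_wt (h : wt S C < wt S D) : nu S C < nu S D :=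
  lt_of_not_ge fun e => absurd (wt_le_of_nu e) (not_le.2 h)

lemma nu_sub (hC : Cut C) (hD : Cut D) (h1 : ¬C ⊆ D) (h2 : ¬D ⊆ C) :
    nu S (C ∩ D) + nu S (C ∪ D) < nu S C + nu S D := by
  obtain ⟨x, a1, a2⟩ := not_subset.1 h1
  obtain ⟨y, a3, a4⟩ := not_subset.1 h2
  rw [nu, nu, nu, nu, ← toLex_add, ← toLex_add]
  refine Pi.toLex_strictMono (Pi.lt_def.2 ⟨fun o => ?_, ((x⁻¹ * y : E) : WithBot E), ?_⟩)
  · induction o using WithBot.recBotCoe with
    | bot =>
      show wt S (C ∩ D) + wt S (C ∪ D) ≤ wt S C + wt S D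
      simp only [wt, ← Finset.sum_add_distrib]
      exact Finset.sum_le_sum fun s _ => sub_le hC hD s
    | coe h => exact sub_le hC hD h
  · exact sub_lt hC hD a1 a2 a3 a4

/-- optimal cuts. -/
def Opt (S : Finset E) (f : E) (C : Set E) : Prop :=
  Cut C ∧ Spl f C ∧ ∀ D, Cut D → Spl f D → nu S C ≤ nu S D

lemma Opt.min (h : Opt S f C) : Min S f C :=
  ⟨h.1, h.2.1, fun D hD hs => wt_le_of_nu (h.2.2 D hD hs)⟩

omit [WellFoundedLT E] in
lemma Opt.compl (h : Opt S f C) : Opt S f⁻¹ Cᶜ := by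
  refine ⟨h.1.compl, spl_compl h.2.1, fun D hD hs => ?_⟩
  have := h.2.2 Dᶜ hD.compl (by simpa using spl_compl hs)
  rwa [nu_compl] at this ⊢

omit [WellFoundedLT E] in
lemma Opt.smul (h : Opt S f C) (g : E) : Opt S (g * f * g⁻¹) (g • C) := by
  refine ⟨h.1.smul g, spl_smul h.2.1 g, fun D hD hs => ?_⟩
  have := h.2.2 (g⁻¹ • D) (hD.smul _) (by simpa [mul_assoc] using spl_smul hs g⁻¹)
  rwa [nu_smul] at this ⊢

omit [WellFoundedLT E] in
lemma Opt.le (h : Opt S f C) (hD : Cut D) (h1 : In f D) (h2 : In f⁻¹ Dᶜ) : nu S C ≤ nu S D :=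
  h.2.2 D hD (spl_iff.2 ⟨h1, h2⟩)

omit [WellFoundedLT E] in
lemma Opt.le' (h : Opt S f C) (hD : Cut D) (h1 : In f Dᶜ) (h2 : In f⁻¹ D) : nu S C ≤ nu S D := by
  have := h.le hD.compl h1 (by rwa [compl_compl])
  rwa [nu_compl] at this

lemma ex_opt (hS : Subgroup.closure (S : Set E) = ⊤) (hf : Inf f) (hC : Cut C) (hs : Spl f C) :
    ∃ D, Opt S f D := by
  obtain ⟨C₀, ⟨h1, h2⟩, h3⟩ := exists_minimalFor_of_wellFoundedLT (fun D => Cut D ∧ Spl f D) (wt S)
    ⟨C, hC, hs⟩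
  have hm : Min S f C₀ := ⟨h1, h2, fun D hD hs => le_of_not_gt fun e =>
    absurd (h3 ⟨hD, hs⟩ e.le) (not_le.2 e)⟩
  obtain ⟨R, hR, hR'⟩ := fin_orb hS (wt S C₀)
  have hfin : (nu S '' {D | Min S f D}).Finite := by
    refine (hR.image (nu S)).subset ?_
    rintro _ ⟨D, hD, rfl⟩
    obtain ⟨g, D', h4, rfl⟩ := hR' D ⟨⟨f, hf, hD⟩, hD.2.2 C₀ h1 h2⟩
    exact ⟨D', h4, (nu_smul g).symm⟩
  obtain ⟨_, ⟨D, hD, rfl⟩, h5⟩ := Set.exists_min_image _ id hfin ⟨_, C₀, hm, rfl⟩
  refine ⟨D, hD.1, hD.2.1, fun D' c s => ?_⟩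
  rcases (hD.2.2 D' c s).lt_or_eq with e | e
  · exact (nu_lt_of_wt e).le
  · exact h5 _ ⟨D', ⟨c, s, fun D'' c' s' => e ▸ hD.2.2 D'' c' s'⟩, rfl⟩

lemma nested_aux (hf : Inf f) (hg : Inf g) (hC : Opt S f C) (hD : Opt S g D) (h0 : In f D) :
    C ⊆ D ∨ C ⊆ Dᶜ ∨ Cᶜ ⊆ D ∨ Cᶜ ⊆ Dᶜ := by
  by_contra hn
  simp only [not_or] at hn
  obtain ⟨n1, n2, n3, n4⟩ := hn
  have A := nu_sub (S := S) hC.1 hD.1 n1 (fun e => n4 (compl_subset_compl.2 e))
  have B := nu_sub (S := S) hC.1 hD.1.compl n2 (fun e => n3 (compl_subset_comm.1 e))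
  rw [nu_compl] at B
  obtain ⟨f1, f2⟩ := spl_iff.1 hC.2.1
  obtain ⟨g1, g2⟩ := spl_iff.1 hD.2.1
  have cI := hC.1.inter hD.1
  have cU := hC.1.union hD.1
  have a1 : nu S C ≤ nu S (C ∩ D) :=
    hC.le cI (f1.inter h0) (f2.mono (compl_subset_compl.2 inter_subset_left))
  rcases in_or hg.inv hC.1 with b | b
  · rcases in_or hf.inv hD.1 with c | c
    · have a2 : nu S D ≤ nu S (C ∩ Dᶜ) := hD.le' (hC.1.inter hD.1.compl)
        (g1.mono fun x hx e => e.2 hx) (b.inter g2)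
      have a3 : nu S C ≤ nu S (C ∪ Dᶜ) := hC.le (hC.1.union hD.1.compl)
        (f1.mono subset_union_left) ((f2.inter c).mono fun x hx e => e.elim hx.1 fun e => e hx.2)
      exact absurd B (not_lt.2 (add_comm (nu S C) _ ▸ add_le_add a2 a3))
    · have a2 : nu S C ≤ nu S (C ∪ D) := hC.le cU (f1.mono subset_union_left)
        ((f2.inter c).mono fun x hx e => e.elim hx.1 hx.2)
      rcases in_or hg hC.1 with d | d
      · have a3 : nu S D ≤ nu S (C ∩ D) :=
          hD.le cI (d.inter g1) (g2.mono (compl_subset_compl.2 inter_subset_right))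
        exact absurd A (not_lt.2 (add_comm (nu S C) _ ▸ add_le_add a3 a2))
      · have a3 : nu S D ≤ nu S C := hD.le' hC.1 d b
        exact absurd A (not_lt.2 (add_le_add a1 (a3.trans a2)))
  · have a2 : nu S D ≤ nu S (C ∪ D) := hD.le cU (g1.mono subset_union_right)
      ((b.inter g2).mono fun x hx e => e.elim hx.1 hx.2)
    exact absurd A (not_lt.2 (add_le_add a1 a2))

lemma nested (hf : Inf f) (hg : Inf g) (hC : Opt S f C) (hD : Opt S g D) :
    C ⊆ D ∨ C ⊆ Dᶜ ∨ Cᶜ ⊆ D ∨ Cᶜ ⊆ Dᶜ := by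
  rcases in_or hf hD.1 with h | h
  · exact nested_aux hf hg hC hD h
  · have := nested_aux hf hg.inv hC hD.compl h
    rw [compl_compl] at this
    tauto

omit [LinearOrder E] [WellFoundedLT E] in
lemma smul_ne (hf : Inf f) (hC : Cut C) (hs : Spl g C) : f • C ≠ C := by
  intro e
  obtain ⟨h1, h2⟩ := spl_iff.1 hs
  obtain ⟨x, hx⟩ := h1.nonempty
  obtain ⟨y, hy⟩ := h2.nonempty
  have key : ∀ (k : ℕ) (z : E), f ^ k * z ∈ C ↔ z ∈ C := by
    intro k z
    induction k with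
    | zero => rw [pow_zero, one_mul]
    | succ k ih =>
      rw [pow_succ', mul_assoc, ← ih]
      conv_lhs => rw [← e]
      exact smul_mem_smul_set_iff
  obtain ⟨k, hk⟩ := (ev_iff hf hC x y).exists
  rw [key, key] at hk
  exact hy (hk.1 hx)

theorem cuts_of (Fs : Subgroup E) (hN : Fs.Normal) (hS : Subgroup.closure (S : Set E) = ⊤)
    (T : Set E) (hT : T.Finite) (hTF : ∀ g : E, ∃ f ∈ Fs, ∃ τ ∈ T, g = f * τ)
    (htf : ∀ f ∈ Fs, f ≠ 1 → Inf f) (k : ℕ)
    (hb : ∀ f ∈ Fs, f ≠ 1 → ∃ C, Cut C ∧ Spl f C ∧ wt S C ≤ k) :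
    Cuts Fs {C | ∃ f ∈ Fs, f ≠ 1 ∧ Opt S f C} := by
  have hfam : ∀ C, (∃ f ∈ Fs, f ≠ 1 ∧ Opt S f C) → C ∈ Fam S k := by
    rintro C ⟨f, h1, h2, h3⟩
    obtain ⟨D, c, s, w⟩ := hb f h1 h2
    exact ⟨⟨f, htf f h1 h2, h3.min⟩, (h3.min.2.2 D c s).trans w⟩
  refine ⟨?_, ?_, ?_, fun x y => (fin_sep hS k x y).subset fun C hC => ⟨hfam C hC.1, hC.2⟩,
    ?_, ?_, ?_, ?_⟩
  · rintro C ⟨f, h1, h2, h3⟩
    exact ⟨f⁻¹, inv_mem h1, inv_ne_one.2 h2, h3.compl⟩
  · rintro g C ⟨f, h1, h2, h3⟩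
    exact ⟨_, hN.conj_mem f h1 g, by simpa using h2, h3.smul g⟩
  · rintro C ⟨f, h1, h2, h3⟩ D ⟨g, h4, h5, h6⟩
    exact nested (htf f h1 h2) (htf g h4 h5) h3 h6
  · obtain ⟨R, hR, hR'⟩ := fin_orb hS k
    refine ⟨image2 (fun (τ : E) D => τ • D) T R, hT.image2 _ hR, fun C hC => ?_⟩
    obtain ⟨g, D, hD, rfl⟩ := hR' C (hfam C hC)
    obtain ⟨f, hf, τ, hτ, rfl⟩ := hTF g
    exact ⟨f, hf, τ • D, mem_image2_of_mem hτ hD, mul_smul _ _ _⟩
  · rintro f h1 h2 C ⟨g, -, -, h3⟩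
    exact smul_ne (htf f h1 h2) h3.1 h3.2.1
  · intro f h1 h2
    obtain ⟨D, c, s, -⟩ := hb f h1 h2
    obtain ⟨C, hC⟩ := ex_opt hS (htf f h1 h2) c s
    exact ⟨C, ⟨f, h1, h2, hC⟩, hC.2.1⟩
  · rintro C ⟨f, h1, h2, h3⟩
    exact ⟨f, h1, h2, h3.2.1⟩

end opt

section free
open FreeGroup
variable {α : Type} [DecidableEq α]

omit [DecidableEq α] in
lemma inf_free {a : FreeGroup α} (ha : a ≠ 1) : Inf a :=
  injective_pow_iff_not_isOfFinOrder.2 (not_isOfFinOrder_of_isMulTorsionFree ha)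

/-- words with a given first letter. -/
def St (l : α × Bool) : Set (FreeGroup α) := {x | x.toWord.head? = some l}

lemma head_mul_of (x : FreeGroup α) (i : α) (hx : 2 ≤ x.toWord.length) :
    (x * of i).toWord.head? = x.toWord.head? := by
  have hr : IsReduced x.toWord := isReduced_toWord
  obtain ⟨L, b, hL⟩ : ∃ L b, x.toWord = L ++ [b] := by
    rcases List.eq_nil_or_concat x.toWord with e | ⟨L, b, e⟩
    · simp [e] at hx
    · exact ⟨L, b, by simpa using e⟩
  have hL0 : L ≠ [] := by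
    rintro rfl
    simp [hL] at hx
  rw [hL] at hr
  by_cases hb : b = (i, false)
  · have e : x * of i = mk L := by
      rw [← mk_toWord (x := x), hL, hb, ← mul_mk, mul_assoc]
      have : (mk [(i, false)] : FreeGroup α) = (of i)⁻¹ := rfl
      rw [this, inv_mul_cancel, mul_one]
    have h1 : IsReduced L := (List.isChain_append.1 hr).1
    rw [e, toWord_mk, h1.reduce_eq, hL, List.head?_append_of_ne_nil _ hL0]
  · have h2 : IsReduced ([b] ++ [(i, true)]) := by
      obtain ⟨j, c⟩ := b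
      cases c <;> simp_all [FreeGroup.IsReduced]
    have h3 := hr.append_overlap h2 (by simp)
    rw [toWord_mul, toWord_of, hL, h3.reduce_eq, List.append_assoc,
      List.head?_append_of_ne_nil _ hL0, List.head?_append_of_ne_nil _ hL0]

lemma cut_St [Finite α] (l : α × Bool) : Cut (St l) := by
  refine cut_of_gen (closure_range_of α) ?_
  rintro _ ⟨i, rfl⟩
  refine ((List.finite_length_lt (α × Bool) 2).preimage toWord_injective.injOn).subset
    fun x hx => ?_
  by_contra hl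
  exact hx (by
    simp only [St, mem_ofPred_eq]
    rw [head_mul_of x i (not_lt.1 hl)])

lemma toWord_pow_cyc {L : List (α × Bool)} (hL : IsCyclicallyReduced L) (k : ℕ) :
    (mk L ^ k).toWord = (List.replicate k L).flatten := by
  rw [toWord_pow, toWord_mk, hL.isReduced.reduce_eq, (hL.flatten_replicate k).isReduced.reduce_eq]

lemma spl_St [Finite α] {a : FreeGroup α} (ha : a ≠ 1) :
    ∃ (u : FreeGroup α) (l : α × Bool), Spl a (u • St l) := by
  set L := reduceCyclically a.toWord with hLd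
  have hL : IsCyclicallyReduced L := reduceCyclically.isCyclicallyReduced isReduced_toWord
  set u := mk (reduceCyclically.conjugator a.toWord) with hu
  have e : a = u * mk L * u⁻¹ := by
    rw [hu, inv_mk, mul_mk, mul_mk, reduceCyclically.conj_conjugator_reduceCyclically, mk_toWord]
  have h1 : mk L ≠ 1 := fun h => ha (by rw [e, h]; simp)
  have hL0 : L ≠ [] := fun h => h1 (by rw [h]; rfl)
  refine ⟨u, L.head hL0, ?_⟩
  rw [e]
  refine spl_smul (spl_iff.2 ⟨in_of_one (inf_free h1) (cut_St _) ?_,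
    in_of_one (inf_free h1).inv (cut_St _).compl ?_⟩) u
  · filter_upwards [eventually_ne_atTop 0] with k hk
    simp only [St, mem_ofPred_eq]
    rw [toWord_pow_cyc hL, List.head?_flatten_replicate hk, List.head?_eq_some_head hL0]
  · filter_upwards [eventually_ne_atTop 0] with k hk
    simp only [St, mem_compl_iff, mem_ofPred_eq]
    rw [inv_pow, toWord_inv, toWord_pow_cyc hL, invRev, List.head?_reverse, List.getLast?_map,
      List.getLast?_flatten_replicate hk, List.getLast?_eq_some_getLast hL0]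
    intro h
    have h2 := hL.2 _ (List.getLast?_eq_some_getLast hL0) _ (List.head?_eq_some_head hL0)
    simp only [Option.map_some, Option.some.injEq] at h
    rw [← h] at h2
    simp at h2

end free

theorem scut : SCut := by
  intro E _ m ι hι hN hI
  classical
  obtain ⟨_, _⟩ := exists_wellFoundedLT E
  let τ : E → E := fun x => (QuotientGroup.mk x : E ⧸ ι.range).out
  have hτ : ∀ x, ∃ a, ι a = x * (τ x)⁻¹ := by
    intro x
    have : (QuotientGroup.mk (x * (τ x)⁻¹) : E ⧸ ι.range) = 1 := by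
      simp [τ]
    exact (QuotientGroup.eq_one_iff _).1 this
  choose p hp using hτ
  have hτι : ∀ a x, τ (ι a * x) = τ x := by
    intro a x
    have : (QuotientGroup.mk (ι a) : E ⧸ ι.range) = 1 := (QuotientGroup.eq_one_iff _).2 ⟨a, rfl⟩
    simp only [τ, QuotientGroup.mk_mul, this, one_mul]
  have hx : ∀ x, x = ι (p x) * τ x := fun x => by rw [hp, inv_mul_cancel_right]
  have hpι : ∀ a x, p (ι a * x) = a * p x := fun a x => hι (by
    rw [hp, map_mul, hp, hτι, mul_assoc])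
  have hT : (range τ).Finite :=
    (finite_range (fun q : E ⧸ ι.range => q.out)).subset (by rintro _ ⟨x, rfl⟩; exact ⟨_, rfl⟩)
  have hS0 : (range (fun i => ι (FreeGroup.of i)) ∪ range τ).Finite := (finite_range _).union hT
  have hS : Subgroup.closure (hS0.toFinset : Set E) = ⊤ := by
    rw [Finite.coe_toFinset, eq_top_iff]
    intro x _
    rw [hx x]
    refine mul_mem ?_ (Subgroup.subset_closure (Or.inr ⟨x, rfl⟩))
    have h1 : p x ∈ Subgroup.closure (range (FreeGroup.of : Fin m → FG m)) := by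
      rw [FreeGroup.closure_range_of]; trivial
    have h2 := Subgroup.mem_map_of_mem ι h1
    rw [MonoidHom.map_closure, ← range_comp] at h2
    exact Subgroup.closure_mono subset_union_left h2
  have hcut : ∀ A : Set (FG m), Cut A → Cut (p ⁻¹' A) := by
    intro A hA h
    refine (hT.biUnion fun t _ => (hA (p (t * h))).image fun a => ι a * t).subset fun x hxb => ?_
    refine mem_biUnion ⟨x, rfl⟩ ⟨p x, ?_, (hx x).symm⟩
    have e : p (x * h) = p x * p (τ x * h) := by rw [← hpι, ← mul_assoc, ← hx]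
    simpa only [bd, mem_ofPred_eq, mem_preimage, e] using hxb
  refine ⟨_, cuts_of (S := hS0.toFinset) ι.range hN hS (range τ) hT
    (fun g => ⟨_, ⟨p g, rfl⟩, _, ⟨g, rfl⟩, hx g⟩) ?_
    (Finset.univ.sup fun l : Fin m × Bool => wt hS0.toFinset (p ⁻¹' St l)) ?_⟩
  · rintro _ ⟨a, rfl⟩ ha i j e
    exact inf_free (a := a) (fun h => ha (by rw [h, map_one])) (hι (by simpa only [map_pow] using e))
  · rintro _ ⟨a, rfl⟩ ha
    obtain ⟨u, l, hs⟩ := spl_St (a := a) fun h => ha (by rw [h, map_one])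
    have e : p ⁻¹' (u • St l) = ι u • p ⁻¹' St l := by
      ext x
      simp only [mem_preimage, mem_smul_set_iff_inv_smul_mem, smul_eq_mul, ← map_inv, hpι]
    refine ⟨p ⁻¹' (u • St l), hcut _ ((cut_St l).smul u), fun x => ?_, ?_⟩
    · simpa only [mem_preimage, ← map_inv, ← map_pow, hpι] using hs (p x)
    · rw [e, wt_smul]
      exact Finset.le_sup (f := fun l : Fin m × Bool => wt hS0.toFinset (p ⁻¹' St l))
        (Finset.mem_univ l)

end Pool.Agent.MP_3ce0a0_al.H3
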