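import Pool.Agent.MP_3ce0a0_al.H79.SpecT

/-
Optimal cuts in a finitely generated group: the abstract part.
-/

namespace Pool.Agent.MP_3ce0a0_al.H3

open Pointwise Set Filter
open Pool.Agent.MP_3ce0a0_al.H79

variable {E : Type} [Group E]

/-- the points that leave or enter `C` under right multiplication by `h`. -/
def bd (h : E) (C : Set E) : Set E := {x | ¬(x ∈ C ↔ x * h ∈ C)}

/-- almost invariant sets. -/
def Cut (C : Set E) : Prop := ∀ h, (bd h C).Finite

/-- `C` contains the attracting end of `f`. -/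
def In (f : E) (C : Set E) : Prop := ∀ x, ∀ᶠ k : ℕ in atTop, f ^ k * x ∈ C

/-- elements of infinite order. -/
def Inf (f : E) : Prop := Function.Injective fun k : ℕ => f ^ k

variable {f g h : E} {C D : Set E}

lemma spl_iff : Spl f C ↔ In f C ∧ In f⁻¹ Cᶜ := forall_and

lemma Inf.inv (hf : Inf f) : Inf f⁻¹ := fun a b e => hf (by simpa using e)

lemma bd_compl : bd h Cᶜ = bd h C := by
  ext x
  simp only [bd, mem_ofPred_eq, mem_compl_iff]
  tauto

lemma bd_smul (g : E) : bd h (g • C) = g • bd h C := by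
  ext x
  simp only [bd, mem_ofPred_eq, mem_smul_set_iff_inv_smul_mem, smul_eq_mul, mul_assoc]

lemma bd_one : bd 1 C = ∅ := by
  ext x
  simp [bd]

lemma bd_mul (a b : E) : bd (a * b) C ⊆ bd a C ∪ (fun x => x * a) ⁻¹' bd b C := by
  intro x hx
  simp only [bd, mem_ofPred_eq, mem_union, mem_preimage, ← mul_assoc] at hx ⊢
  tauto

lemma bd_inv (a : E) : bd a⁻¹ C = (fun x => x * a⁻¹) ⁻¹' bd a C := by
  ext x
  simp only [bd, mem_ofPred_eq, mem_preimage, inv_mul_cancel_right]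
  tauto

lemma bd_inter : bd h (C ∩ D) ⊆ bd h C ∪ bd h D := by
  intro x hx
  simp only [bd, mem_ofPred_eq, mem_union, mem_inter_iff] at hx ⊢
  tauto

lemma bd_union : bd h (C ∪ D) ⊆ bd h C ∪ bd h D := by
  intro x hx
  simp only [bd, mem_ofPred_eq, mem_union] at hx ⊢
  tauto

lemma bd_both : bd h (C ∩ D) ∩ bd h (C ∪ D) ⊆ bd h C ∩ bd h D := by
  intro x hx
  simp only [bd, mem_ofPred_eq, mem_union, mem_inter_iff] at hx ⊢
  tauto

lemma Cut.compl (hC : Cut C) : Cut Cᶜ := fun h => by rw [bd_compl]; exact hC h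

lemma Cut.smul (hC : Cut C) (g : E) : Cut (g • C) := fun h => by
  rw [bd_smul]; exact (hC h).smul_set

lemma Cut.inter (hC : Cut C) (hD : Cut D) : Cut (C ∩ D) := fun h =>
  ((hC h).union (hD h)).subset bd_inter

lemma Cut.union (hC : Cut C) (hD : Cut D) : Cut (C ∪ D) := fun h =>
  ((hC h).union (hD h)).subset bd_union

lemma cut_of_gen {S : Set E} (hS : Subgroup.closure S = ⊤) (h : ∀ s ∈ S, (bd s C).Finite) :
    Cut C := by
  intro a
  have ha : a ∈ Subgroup.closure S := hS ▸ Subgroup.mem_top a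
  induction ha using Subgroup.closure_induction with
  | mem s hs => exact h s hs
  | one => rw [bd_one]; exact finite_empty
  | mul a b _ _ iha ihb =>
    exact (iha.union (ihb.preimage (mul_left_injective a).injOn)).subset (bd_mul a b)
  | inv a _ iha => rw [bd_inv]; exact iha.preimage (mul_left_injective _).injOn

lemma triv_of_gen {S : Set E} (hS : Subgroup.closure S = ⊤) (h : ∀ s ∈ S, bd s C = ∅) {x y : E}
    (hx : x ∈ C) : y ∈ C := by
  have key : ∀ a, bd a C = ∅ := by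
    intro a
    have ha : a ∈ Subgroup.closure S := hS ▸ Subgroup.mem_top a
    induction ha using Subgroup.closure_induction with
    | mem s hs => exact h s hs
    | one => exact bd_one
    | mul a b _ _ iha ihb =>
      have := bd_mul (C := C) a b
      rwa [iha, ihb, preimage_empty, union_empty, subset_empty_iff] at this
    | inv a _ iha => rw [bd_inv, iha, preimage_empty]
  have h1 : x ∉ bd (x⁻¹ * y) C := by rw [key]; exact notMem_empty x
  simp only [bd, mem_ofPred_eq, mul_inv_cancel_left, not_not] at h1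
  exact h1.1 hx

lemma ev_iff (hf : Inf f) (hC : Cut C) (x y : E) :
    ∀ᶠ k : ℕ in atTop, (f ^ k * x ∈ C ↔ f ^ k * y ∈ C) := by
  have hi : Function.Injective fun k : ℕ => f ^ k * x := fun a b e =>
    hf (mul_right_cancel (b := x) e)
  have h1 := (hC (x⁻¹ * y)).preimage hi.injOn
  rw [← Nat.cofinite_eq_atTop]
  filter_upwards [h1.compl_mem_cofinite] with k hk
  simpa only [bd, mem_compl_iff, mem_preimage, mem_ofPred_eq, mul_assoc, mul_inv_cancel_left,
    not_not] using hk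

lemma in_of_one (hf : Inf f) (hC : Cut C) (h : ∀ᶠ k : ℕ in atTop, f ^ k ∈ C) : In f C := by
  intro x
  filter_upwards [ev_iff hf hC 1 x, h] with k h1 h2
  exact h1.1 (by rwa [mul_one])

lemma in_or (hf : Inf f) (hC : Cut C) : In f C ∨ In f Cᶜ := by
  obtain ⟨K, hK⟩ := eventually_atTop.1 (ev_iff hf hC 1 f)
  have key : ∀ k, K ≤ k → (f ^ k ∈ C ↔ f ^ K ∈ C) := by
    intro k hk
    induction k, hk using Nat.le_induction with
    | base => rfl
    | succ k hk ih =>
      have := hK k hk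
      rw [mul_one, ← pow_succ] at this
      exact this.symm.trans ih
  by_cases h : f ^ K ∈ C
  · exact Or.inl (in_of_one hf hC (eventually_atTop.2 ⟨K, fun k hk => (key k hk).2 h⟩))
  · exact Or.inr (in_of_one hf hC.compl
      (eventually_atTop.2 ⟨K, fun k hk e => h ((key k hk).1 e)⟩))

lemma In.mono (h : In f C) (hCD : C ⊆ D) : In f D := fun x => (h x).mono fun _ hk => hCD hk

lemma In.inter (h : In f C) (h' : In f D) : In f (C ∩ D) := fun x => (h x).and (h' x)

lemma In.nonempty (h : In f C) : C.Nonempty := by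
  obtain ⟨k, hk⟩ := (h 1).exists
  exact ⟨_, hk⟩

lemma In.smul (h : In f C) (g : E) : In (g * f * g⁻¹) (g • C) := fun x =>
  (h (g⁻¹ * x)).mono fun k hk => by
    rw [conj_pow, mem_smul_set_iff_inv_smul_mem, smul_eq_mul]
    simpa only [mul_assoc, inv_mul_cancel_left] using hk

lemma spl_compl (h : Spl f C) : Spl f⁻¹ Cᶜ := by
  rw [spl_iff] at h ⊢
  exact ⟨h.2, by simpa using h.1⟩

lemma spl_smul (h : Spl f C) (g : E) : Spl (g * f * g⁻¹) (g • C) := by
  rw [spl_iff] at h ⊢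
  refine ⟨h.1.smul g, ?_⟩
  have := h.2.smul g
  rwa [smul_set_compl, ← conj_inv] at this

lemma sub_le (hC : Cut C) (hD : Cut D) (h : E) :
    (bd h (C ∩ D)).ncard + (bd h (C ∪ D)).ncard ≤ (bd h C).ncard + (bd h D).ncard := by
  rw [← ncard_union_add_ncard_inter _ _ (hC.inter hD h) (hC.union hD h),
    ← ncard_union_add_ncard_inter _ _ (hC h) (hD h)]
  exact add_le_add (ncard_le_ncard (union_subset bd_inter bd_union) ((hC h).union (hD h)))
    (ncard_le_ncard bd_both ((hC h).inter_of_left _))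

lemma sub_lt (hC : Cut C) (hD : Cut D) {x y : E} (h1 : x ∈ C) (h2 : x ∉ D) (h3 : y ∈ D)
    (h4 : y ∉ C) : (bd (x⁻¹ * y) (C ∩ D)).ncard + (bd (x⁻¹ * y) (C ∪ D)).ncard <
      (bd (x⁻¹ * y) C).ncard + (bd (x⁻¹ * y) D).ncard := by
  set h := x⁻¹ * y with hh
  have hy : x * h = y := by rw [hh, mul_inv_cancel_left]
  rw [← ncard_union_add_ncard_inter _ _ (hC.inter hD h) (hC.union hD h),
    ← ncard_union_add_ncard_inter _ _ (hC h) (hD h)]
  refine add_lt_add_of_le_of_lt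
    (ncard_le_ncard (union_subset bd_inter bd_union) ((hC h).union (hD h)))
    (ncard_lt_ncard ⟨bd_both, fun e => ?_⟩ ((hC h).inter_of_left _))
  have h5 : x ∈ bd h C ∩ bd h D := by
    simp only [bd, mem_inter_iff, mem_ofPred_eq, hy]
    tauto
  have h6 := (e h5).1
  simp only [bd, mem_inter_iff, mem_ofPred_eq, hy] at h6
  tauto

/-- the size of the coboundary. -/
noncomputable def wt (S : Finset E) (C : Set E) : ℕ := ∑ s ∈ S, (bd s C).ncard

variable {S : Finset E}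

lemma wt_compl : wt S Cᶜ = wt S C := by simp only [wt, bd_compl]

lemma wt_smul (g : E) : wt S (g • C) = wt S C := by simp only [wt, bd_smul, ncard_smul_set]

lemma triv_of_wt (hS : Subgroup.closure (S : Set E) = ⊤) (hC : Cut C) (h : wt S C = 0) {x y : E}
    (hx : x ∈ C) : y ∈ C :=
  triv_of_gen hS (fun s hs => (ncard_eq_zero (hC s)).1 (Finset.sum_eq_zero_iff.1 h s hs)) hx

/-- cuts of minimal size that split `f`. -/
def Min (S : Finset E) (f : E) (C : Set E) : Prop :=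
  Cut C ∧ Spl f C ∧ ∀ D, Cut D → Spl f D → wt S C ≤ wt S D

lemma Min.compl (h : Min S f C) : Min S f⁻¹ Cᶜ := by
  refine ⟨h.1.compl, spl_compl h.2.1, fun D hD hs => ?_⟩
  have := h.2.2 Dᶜ hD.compl (by simpa using spl_compl hs)
  rwa [wt_compl] at this ⊢

lemma Min.smul (h : Min S f C) (g : E) : Min S (g * f * g⁻¹) (g • C) := by
  refine ⟨h.1.smul g, spl_smul h.2.1 g, fun D hD hs => ?_⟩
  have := h.2.2 (g⁻¹ • D) (hD.smul _) (by simpa [mul_assoc] using spl_smul hs g⁻¹)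
  rwa [wt_smul] at this ⊢

lemma Inf.conj (hf : Inf f) (g : E) : Inf (g * f * g⁻¹) := fun a b e => hf (by
  simpa only [conj_pow, mul_left_inj, mul_right_inj] using e)

/-- a minimal cut does not decompose. -/
lemma Min.sub (hS : Subgroup.closure (S : Set E) = ⊤) (hf : Inf f) (hD : Min S f D) (hC : Cut C)
    (hag : ∀ s ∈ S, ∀ x ∈ bd s C, (x ∈ D ↔ x ∈ C) ∧ (x * s ∈ D ↔ x * s ∈ C)) {a : E}
    (h1 : a ∈ D) (h2 : a ∈ C) : D ⊆ C := by
  obtain ⟨hDc, hs, hm⟩ := hD
  have c1 : Cut (D ∩ C) := hDc.inter hC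
  have c2 : Cut (D ∩ Cᶜ) := hDc.inter hC.compl
  have hw : wt S (D ∩ C) + wt S (D ∩ Cᶜ) ≤ wt S D := by
    rw [wt, wt, wt, ← Finset.sum_add_distrib]
    refine Finset.sum_le_sum fun s hs => ?_
    have hdis : Disjoint (bd s (D ∩ C)) (bd s (D ∩ Cᶜ)) := by
      rw [Set.disjoint_left]
      intro x hx hx'
      have := hag s hs x
      simp only [bd, mem_ofPred_eq, mem_inter_iff, mem_compl_iff] at hx hx' this
      tauto
    rw [← ncard_union_eq hdis (c1 s) (c2 s)]
    refine ncard_le_ncard (fun x hx => ?_) (hDc s)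
    have := hag s hs x
    simp only [bd, mem_ofPred_eq, mem_inter_iff, mem_compl_iff, mem_union] at hx this ⊢
    tauto
  rw [spl_iff] at hs
  rcases in_or hf hC with h | h
  · have h3 := hm _ c1 (spl_iff.2 ⟨hs.1.inter h, hs.2.mono (compl_subset_compl.2 inter_subset_left)⟩)
    intro x hx
    by_contra hxC
    exact (triv_of_wt hS c2 (by omega) (x := x) (y := a) ⟨hx, hxC⟩).2 h2
  · have h3 := hm _ c2 (spl_iff.2 ⟨hs.1.inter h, hs.2.mono (compl_subset_compl.2 inter_subset_left)⟩)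
    obtain ⟨y, hy⟩ := hs.2.nonempty
    exact absurd (triv_of_wt hS c1 (by omega) (x := a) (y := y) ⟨h1, h2⟩).1 hy

/-- the minimal cuts of bounded size. -/
def Fam (S : Finset E) (k : ℕ) : Set (Set E) := {D | (∃ f, Inf f ∧ Min S f D) ∧ wt S D ≤ k}

lemma fin_sep (hS : Subgroup.closure (S : Set E) = ⊤) (k : ℕ) (a b : E) :
    {D | D ∈ Fam S k ∧ a ∈ D ∧ b ∉ D}.Finite := by
  by_contra hinf
  have hne := Set.Infinite.cofinite_inf_principal_neBot hinf
  set U := Ultrafilter.of (cofinite ⊓ 𝓟 {D | D ∈ Fam S k ∧ a ∈ D ∧ b ∉ D}) with hU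
  have hle : (U : Filter (Set E)) ≤ cofinite ⊓ 𝓟 {D | D ∈ Fam S k ∧ a ∈ D ∧ b ∉ D} :=
    Ultrafilter.of_le _
  have hF : ∀ᶠ D in (U : Filter (Set E)), D ∈ Fam S k ∧ a ∈ D ∧ b ∉ D :=
    le_principal_iff.1 (hle.trans inf_le_right)
  set C : Set E := {z | ∀ᶠ D in (U : Filter (Set E)), z ∈ D} with hC
  have hz : ∀ z, ∀ᶠ D in (U : Filter (Set E)), (z ∈ D ↔ z ∈ C) := by
    intro z
    by_cases h : z ∈ C
    · exact Eventually.mono h fun D hD => iff_of_true hD h
    · exact (Ultrafilter.eventually_not.2 h).mono fun D hD => iff_of_false hD h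
  have hag : ∀ (s : E) (T : Set E), T.Finite → ∀ᶠ D in (U : Filter (Set E)),
      ∀ x ∈ T, (x ∈ D ↔ x ∈ C) ∧ (x * s ∈ D ↔ x * s ∈ C) := fun s T hT =>
    (eventually_all_finite hT).2 fun x _ => (hz x).and (hz (x * s))
  have hcut : Cut C := by
    refine cut_of_gen hS fun s hs => ?_
    by_contra hi
    obtain ⟨T, hT, hc⟩ := Set.Infinite.exists_subset_card_eq hi (k + 1)
    obtain ⟨D, ⟨⟨⟨f, -, hm⟩, hw⟩, -⟩, h2⟩ := (hF.and (hag s T T.finite_toSet)).exists
    have h3 : (T : Set E) ⊆ bd s D := fun x hx => by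
      have h4 := h2 x hx
      have h5 := hT hx
      simp only [bd, mem_ofPred_eq] at h5 ⊢
      tauto
    have h4 := ncard_le_ncard h3 (hm.1 s)
    rw [ncard_coe_finset, hc] at h4
    have h5 : (bd s D).ncard ≤ wt S D :=
      Finset.single_le_sum (f := fun s => (bd s D).ncard) (fun _ _ => Nat.zero_le _) hs
    omega
  have h1 : ∀ᶠ D in (U : Filter (Set E)), ∀ s ∈ S, ∀ x ∈ bd s C,
      (x ∈ D ↔ x ∈ C) ∧ (x * s ∈ D ↔ x * s ∈ C) :=
    (eventually_all_finset S).2 fun s _ => hag s _ (hcut s)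
  have h2 : ∀ᶠ D in (U : Filter (Set E)), D ≠ C :=
    (hle.trans inf_le_left) (eventually_cofinite_ne C)
  obtain ⟨D, ⟨⟨⟨f, hf, hm⟩, -⟩, ha, hb⟩, h3, h4, h5, h6⟩ :=
    (hF.and (h1.and (h2.and ((hz a).and (hz b))))).exists
  refine h4 (Subset.antisymm (hm.sub hS hf hcut h3 ha (h5.1 ha)) (compl_subset_compl.1 ?_))
  refine hm.compl.sub hS hf.inv hcut.compl (fun s hs x hx => ?_) hb (fun e => hb (h6.2 e))
  rw [bd_compl] at hx
  have := h3 s hs x hx
  simp only [mem_compl_iff]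
  tauto

lemma Fam.smul {k : ℕ} (h : C ∈ Fam S k) (g : E) : g • C ∈ Fam S k := by
  obtain ⟨⟨f, hf, hm⟩, hw⟩ := h
  exact ⟨⟨_, hf.conj g, hm.smul g⟩, by rwa [wt_smul]⟩

lemma fin_orb (hS : Subgroup.closure (S : Set E) = ⊤) (k : ℕ) :
    ∃ R : Set (Set E), R.Finite ∧ ∀ C ∈ Fam S k, ∃ g : E, ∃ D ∈ R, C = g • D := by
  refine ⟨⋃ s ∈ S, ({D | D ∈ Fam S k ∧ 1 ∈ D ∧ s ∉ D} ∪ {D | D ∈ Fam S k ∧ s ∈ D ∧ 1 ∉ D}),
    S.finite_toSet.biUnion fun s _ => (fin_sep hS k 1 s).union (fin_sep hS k s 1), fun C hC => ?_⟩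
  obtain ⟨s, hs, x, hx⟩ : ∃ s ∈ S, (bd s C).Nonempty := by
    by_contra hn
    obtain ⟨⟨f, -, -, hsp, -⟩, -⟩ := hC
    rw [spl_iff] at hsp
    obtain ⟨x, hx⟩ := hsp.1.nonempty
    obtain ⟨y, hy⟩ := hsp.2.nonempty
    exact hy (triv_of_gen hS (fun s hs => not_nonempty_iff_eq_empty.1 fun e => hn ⟨s, hs, e⟩) hx)
  refine ⟨x, x⁻¹ • C, mem_biUnion hs ?_, by simp⟩
  have h1 := Fam.smul hC x⁻¹
  simp only [bd, mem_ofPred_eq] at hx
  simp only [mem_union, mem_ofPred_eq, mem_inv_smul_set_iff, smul_eq_mul, mul_one]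
  tauto

end Pool.Agent.MP_3ce0a0_al.H3
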