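import Pool.Agent.MP_3ce0a0_al.H79.XS
import Pool.Agent.MP_3ce0a0_al.H79.XG
import Pool.Agent.MP_3ce0a0_al.H79.XB

/-
The fixed subgraph of a product of two sign changes.
-/

namespace Pool.Agent.MP_3ce0a0_al.H3

open Equiv Module Finset Pool.Agent.MP_3ce0a0_al.H62.Inst Pool.Agent.MP_3ce0a0_al.H79.X

section
variable {O H : Type} [Group O] [AddCommGroup H] [Module ℂ H] {π : O →* End ℂ H} (G : Geo π)

lemma ov_of_comm {t y : O} (h : Commute y t) {ω : G.Ω} (hω : G.ov ω = t) :
    G.ov (G.act y ω) = t := by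
  rw [G.ov_act, hω, h.eq, mul_inv_cancel_right]

lemma keeps_Φt {t y : O} (h : Commute y t) : Keeps (π y) (G.Φt t) := by
  intro v hv
  refine (show G.Φt t ≤ (G.Φt t).comap (π y) from iSup₂_le fun ω hω v hv => ?_) hv
  exact (le_iSup₂_of_le (f := fun ω (_ : G.ov ω = t) => G.Φ ω) _ (ov_of_comm G h hω) le_rfl)
    (G.Φ_act y ω v hv)

/-- elements that commute with `t` and act trivially on the components and on the quotient. -/
def KK (t : O) : Subgroup O where
  carrier := {y | Commute y t ∧ (∀ ω, G.ov ω = t → G.act y ω = ω) ∧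
    ∀ v ∈ End.eigenspace (π t) 1, π y v - v ∈ G.Φt t}
  one_mem' := ⟨Commute.one_left _, fun ω _ => by simp, fun v _ => by simp⟩
  mul_mem' := fun {x y} hx hy => ⟨hx.1.mul_left hy.1,
    fun ω hω => by rw [map_mul, Perm.mul_apply, hy.2.1 ω hω, hx.2.1 ω hω], fun v hv => by
      have := add_mem (keeps_Φt G hx.1 _ (hy.2.2 v hv)) (hx.2.2 v hv)
      rwa [map_sub, sub_add_sub_cancel, ← End.mul_apply, ← map_mul] at this⟩
  inv_mem' := fun {x} hx => ⟨hx.1.inv_left,
    fun ω hω => by rw [map_inv, Perm.inv_eq_iff_eq, hx.2.1 ω hω], fun v hv => by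
      have := neg_mem (keeps_Φt G hx.1.inv_left _ (hx.2.2 v hv))
      rwa [map_sub, neg_sub, ← End.mul_apply, ← map_mul, inv_mul_cancel, map_one,
        End.one_apply] at this⟩

lemma KK_conj {t x y : O} (h : Commute y t) (hx : x ∈ KK G t) : y * x * y⁻¹ ∈ KK G t := by
  refine ⟨(h.mul_left hx.1).mul_left h.inv_left, fun ω hω => ?_, fun v hv => ?_⟩
  · rw [map_mul, map_mul, Perm.mul_apply, Perm.mul_apply,
      hx.2.1 _ (ov_of_comm G h.inv_left hω), ← Perm.mul_apply, ← map_mul, mul_inv_cancel,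
      map_one, Perm.one_apply]
  · have := keeps_Φt G h _ (hx.2.2 _ (keeps_eig (h.inv_left.map π) 1 v hv))
    rw [map_sub, ← End.mul_apply (π y) (π y⁻¹), ← map_mul, mul_inv_cancel, map_one,
      End.one_apply] at this
    rwa [map_mul, map_mul]

variable [FiniteDimensional ℂ H]

lemma lpi (h : SGeoL) {t y : O} (ht : t ^ 2 = 1) (hy : y ^ 3 = 1) (hc : Commute y t)
    (hm : ∀ v ∈ End.eigenspace (π t) (-1), π y v = v) :
    (G.fx t y : ℝ) + (trOn (π y) (End.eigenspace (π t) 1) - trOn (π y) (G.Φt t)).re =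
      1 + finrank ℂ (End.eigenspace (π t) (-1)) := by
  have h1 := (h H O π G).2 t y 2 3 (by norm_num) (by norm_num) (by norm_num) ht hy hc.symm
  have htt : ∀ v, π t (π t v) = v := fun v => by
    rw [← End.mul_apply, ← map_mul, ← sq, ht, map_one, End.one_apply]
  have hsup : End.eigenspace (π t) 1 ⊔ End.eigenspace (π t) (-1) = ⊤ := by
    refine eq_top_iff.2 fun v _ => Submodule.mem_sup.2
      ⟨(1 / 2 : ℂ) • (v + π t v), ?_, (1 / 2 : ℂ) • (v - π t v), ?_, ?_⟩
    · rw [End.mem_eigenspace_iff, map_smul, map_add, htt, one_smul, add_comm]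
    · rw [End.mem_eigenspace_iff, map_smul, map_sub, htt]
      module
    · module
  have hdis : Disjoint (End.eigenspace (π t) 1) (End.eigenspace (π t) (-1)) :=
    (End.eigenspaces_iSupIndep (π t)).pairwiseDisjoint (by norm_num)
  have hcm : Commute (π (y * t)) (π t) := (hc.mul_left (Commute.refl t)).map π
  rw [← trOn_top, ← hsup, trOn_sup (keeps_eig hcm 1) (keeps_eig hcm (-1)) hdis,
    trOn_congr (g := π y) (Q := End.eigenspace (π t) 1) (fun v hv => by
      rw [map_mul, End.mul_apply, End.mem_eigenspace_iff.1 hv, one_smul]),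
    trOn_scalar (c := -1) (Q := End.eigenspace (π t) (-1)) (fun v hv => by
      rw [map_mul, End.mul_apply, End.mem_eigenspace_iff.1 hv, map_smul, hm v hv])] at h1
  have h2 := congrArg Complex.re h1
  simp only [Complex.sub_re, Complex.add_re, Complex.natCast_re, Complex.one_re, neg_mul,
    one_mul, Complex.neg_re] at h2 ⊢
  linarith

lemma count (h : SGeoL) {t : O} (ht : t ^ 2 = 1) :
    Nat.card {ω // G.ov ω = t} + finrank ℂ (End.eigenspace (π t) 1) =
      1 + finrank ℂ (End.eigenspace (π t) (-1)) + finrank ℂ (G.Φt t) := by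
  have h1 := lpi G h ht (one_pow 3) (Commute.one_left t) fun v _ => by simp
  rw [trOn_scalar (c := 1) fun v _ => by simp, trOn_scalar (c := 1) fun v _ => by simp] at h1
  have h2 : G.fx t 1 = Nat.card {ω // G.ov ω = t} := by simp [Geo.fx]
  simp only [h2, one_mul, Complex.sub_re, Complex.natCast_re] at h1
  have h3 : (Nat.card {ω // G.ov ω = t} : ℝ) + finrank ℂ (End.eigenspace (π t) 1) =
      1 + finrank ℂ (End.eigenspace (π t) (-1)) + finrank ℂ (G.Φt t) := by linarith
  exact_mod_cast h3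

lemma mem_KK (h : SGeoL) {t y : O} (ht : t ^ 2 = 1) (hy : y ^ 3 = 1) (hc : Commute y t)
    (hm : ∀ v ∈ End.eigenspace (π t) (-1), π y v = v) : y ∈ KK G t := by
  obtain ⟨hfin, -, hfix⟩ := (h H O π G).1 t (isOfFinOrder_iff_pow_eq_one.2 ⟨2, by norm_num, ht⟩)
  have hle : G.Φt t ≤ End.eigenspace (π t) 1 := iSup₂_le fun ω hω v hv => by
    rw [End.mem_eigenspace_iff, one_smul]
    exact (hfix ω hω).2 v hv
  obtain ⟨h1, h2⟩ := re_trOn_sub_le (keeps_eig (hc.map π) 1) (keeps_Φt G hc) hle (k := 3)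
    (by norm_num) fun v _ => by rw [← map_pow, hy, map_one, End.one_apply]
  have h3 := lpi G h ht hy hc hm
  have h4 : (Nat.card {ω // G.ov ω = t} : ℝ) + finrank ℂ (End.eigenspace (π t) 1) =
      1 + finrank ℂ (End.eigenspace (π t) (-1)) + finrank ℂ (G.Φt t) := by
    exact_mod_cast count G h ht
  let j : {ω // G.ov ω = t ∧ G.act y ω = ω} → {ω // G.ov ω = t} := fun ω => ⟨ω.1, ω.2.1⟩
  have hj : Function.Injective j := fun a b e => Subtype.ext (congrArg (fun x => x.1) e)
  have h5 : (G.fx t y : ℝ) ≤ Nat.card {ω // G.ov ω = t} := by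
    exact_mod_cast Nat.card_le_card_of_injective j hj
  refine ⟨hc, fun ω hω => ?_, h2 (by linarith)⟩
  have h6 : Nat.card {ω // G.ov ω = t} ≤ G.fx t y := by
    have : (Nat.card {ω // G.ov ω = t} : ℝ) ≤ G.fx t y := by linarith
    exact_mod_cast this
  obtain ⟨x, hx⟩ := (hj.bijective_of_nat_card_le h6).2 ⟨ω, hω⟩
  have := x.2.2
  rwa [show x.1 = ω from congrArg (fun x => x.1) hx] at this

end

theorem sf1 (h : SGeoL) : SF1 := by
  intro ι O H _ _ _ _ _ _ π G ψ s hH h0 c d hcd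
  obtain ⟨-, -, -, -, h1, -, -, -, -, h2⟩ := h0
  have ht : ψ (ep c * ep d) ^ 2 = 1 := by
    rw [← map_pow, (ep_comm c d).mul_pow, sq, sq, ep_sq, ep_sq, one_mul, map_one]
  have hpm : ∀ σ : Perm ι, σ c = c → σ d = d → Commute (pm σ) (ep c * ep d) := fun σ hc hd =>
    Commute.mul_right ((pm_ep σ c).trans (by rw [hc])) ((pm_ep σ d).trans (by rw [hd]))
  have h3 : ∀ σ : Perm ι, σ ^ 3 = 1 → σ c = c → σ d = d → ψ (pm σ) ∈ KK G (ψ (ep c * ep d)) := by
    intro σ hσ hc hd
    have hs : Perm.sign σ = 1 := by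
      have := congrArg Perm.sign hσ
      rw [map_pow, map_one] at this
      rcases Int.units_eq_one_or (Perm.sign σ) with e | e
      · exact e
      · rw [e] at this; exact absurd this (by decide)
    refine mem_KK G h ht (by rw [← map_pow, ← map_pow, hσ, map_one, map_one])
      ((hpm σ hc hd).map ψ) fun v hv => ?_
    obtain ⟨x, hx, y, hy, rfl⟩ := Submodule.mem_sup.1 ((h1 c d hcd).1.le hv)
    rw [map_add]
    exact congrArg₂ (· + ·) (h2 σ c hs hc x hx) (h2 σ d hs hd y hy)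
  have h4 : ∀ σ : Perm ι, Perm.sign σ = 1 → σ c = c → σ d = d →
      ψ (pm σ) ∈ KK G (ψ (ep c * ep d)) := by
    intro σ hs hc hd
    have hp : ∀ x, (σ x ≠ c ∧ σ x ≠ d) ↔ (x ≠ c ∧ x ≠ d) := fun x =>
      and_congr (σ.injective.ne_iff' hc) (σ.injective.ne_iff' hd)
    have hp' : ∀ x, σ x ≠ x → x ≠ c ∧ x ≠ d := fun x hx =>
      ⟨fun e => hx (e ▸ hc), fun e => hx (e ▸ hd)⟩
    have hle : alternatingGroup {x // x ≠ c ∧ x ≠ d} ≤
        (KK G (ψ (ep c * ep d))).comap (ψ.comp (pm.comp Perm.ofSubtype)) := by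
      rw [← Perm.closure_three_cycles_eq_alternating, Subgroup.closure_le]
      intro τ hτ
      refine h3 _ ?_ (Perm.ofSubtype_apply_of_not_mem _ (by simp))
        (Perm.ofSubtype_apply_of_not_mem _ (by simp))
      rw [← map_pow, ← Perm.IsThreeCycle.orderOf hτ, pow_orderOf_eq_one, map_one]
    have := hle (x := σ.subtypePerm hp)
      (by rw [Perm.mem_alternatingGroup, Perm.sign_subtypePerm _ _ hp', hs])
    rwa [Subgroup.mem_comap, MonoidHom.comp_apply, MonoidHom.comp_apply,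
      Perm.ofSubtype_subtypePerm _ hp'] at this
  have key : ∀ a b, [a, b, c, d].Nodup →
      ψ (rh a b) ∈ KK G (ψ (ep c * ep d)) ∧ ψ (ep a * ep b) ∈ KK G (ψ (ep c * ep d)) := by
    intro a b hn
    obtain ⟨w, hw⟩ : ∃ w, w ∉ ({a, b, c, d} : Finset ι) := by
      by_contra hno
      push Not at hno
      have h5 := card_le_card (show univ ⊆ ({a, b, c, d} : Finset ι) from fun x _ => hno x)
      have h6 : ({a, b, c, d} : Finset ι).card ≤ 4 := card_le_four
      have h7 := hH.1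
      rw [card_univ] at h5
      omega
    simp only [mem_insert, mem_singleton, not_or] at hw
    obtain ⟨wa, wb, wc, wd⟩ := hw
    simp only [List.nodup_cons, List.mem_cons, List.not_mem_nil, or_false, not_or] at hn
    obtain ⟨⟨ab, ac, ad⟩, ⟨bc, bd⟩, -⟩ := hn
    have hcyc : ∀ x y z : ι, x ≠ y → x ≠ z → x ≠ c → x ≠ d → y ≠ c → y ≠ d → z ≠ c → z ≠ d →
        ψ (pm (swap x z * swap x y)) ∈ KK G (ψ (ep c * ep d)) :=
      fun x y z xy xz xc xd yc yd zc zd => h4 _ (by simp [xy, xz])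
        (by rw [Perm.mul_apply, swap_apply_of_ne_of_ne xc.symm yc.symm,
          swap_apply_of_ne_of_ne xc.symm zc.symm])
        (by rw [Perm.mul_apply, swap_apply_of_ne_of_ne xd.symm yd.symm,
          swap_apply_of_ne_of_ne xd.symm zd.symm])
    constructor
    · have hk := hcyc a w b (Ne.symm wa) ab ac ad wc wd bc bd
      have hR : Commute (ψ (rh a w)) (ψ (ep c * ep d)) :=
        (Commute.mul_right ((N0 ι).ε_other a w c (Ne.symm wa) (Ne.symm ac) (Ne.symm wc)).symm
          ((N0 ι).ε_other a w d (Ne.symm wa) (Ne.symm ad) (Ne.symm wd)).symm).map ψ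
      have e1 := pm_rh (swap a b * swap a w) a w
      rw [Perm.mul_apply, Perm.mul_apply, swap_apply_left, swap_apply_right, swap_apply_left,
        swap_apply_of_ne_of_ne wa wb] at e1
      have e2 : (rh a w)⁻¹ * rh w b * rh a w = rh w b * rh a b :=
        (N0 ι).conj_ρ w b a wb (Ne.symm wa) ab
      set p := pm (swap a b * swap a w)
      have e3 : rh w b = p * rh a w * p⁻¹ := by rw [e1, mul_inv_cancel_right]
      have e4 : rh a b = p * ((rh a w)⁻¹ * p⁻¹ * (rh a w)⁻¹⁻¹) *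
          ((rh a w)⁻¹ * ((rh a w)⁻¹ * p * (rh a w)⁻¹⁻¹) * (rh a w)⁻¹⁻¹) *
          ((rh a w)⁻¹ * p⁻¹ * (rh a w)⁻¹⁻¹) := by
        rw [← inv_mul_eq_iff_eq_mul, e3] at e2
        rw [← e2]
        group
      rw [e4]
      generalize ψ (ep c * ep d) = t at hk hR ⊢
      simp only [map_mul, map_inv]
      exact mul_mem (mul_mem (mul_mem hk (KK_conj G hR.inv_left (inv_mem hk)))
        (KK_conj G hR.inv_left (KK_conj G hR.inv_left hk))) (KK_conj G hR.inv_left (inv_mem hk))
    · have hk := hcyc a b w ab (Ne.symm wa) ac ad bc bd wc wd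
      have hR : Commute (ψ (ep a)) (ψ (ep c * ep d)) :=
        ((ep_comm a c).mul_right (ep_comm a d)).map ψ
      have e1 := pm_ep (swap a w * swap a b) a
      rw [Perm.mul_apply, swap_apply_left, swap_apply_of_ne_of_ne (Ne.symm ab) (Ne.symm wb)] at e1
      set p := pm (swap a w * swap a b)
      have e4 : ep a * ep b = ep a * p * (ep a)⁻¹ * p⁻¹ := by
        rw [inv_eq_of_mul_eq_one_right (ep_sq a), mul_assoc (ep a), e1]
        group
      rw [e4]
      generalize ψ (ep c * ep d) = t at hk hR ⊢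
      simp only [map_mul, map_inv]
      exact mul_mem (KK_conj G hR hk) (inv_mem hk)
  refine ⟨fun a b hn => ⟨fun ω hω => ⟨(key a b hn).1.2.1 ω hω, (key a b hn).2.2.1 ω hω⟩,
    fun v hv => ⟨(key a b hn).1.2.2 v hv, (key a b hn).2.2.2 v hv⟩⟩,
    fun σ hs hc hd => (h4 σ hs hc hd).2.1, count G h ht⟩

end Pool.Agent.MP_3ce0a0_al.H3
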